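import Mathlib

/-! Laws of relabelled families of independent labels. -/

set_option autoImplicit false

open MeasureTheory ProbabilityTheory
open scoped ENNReal

namespace Pool.Agent.Lib.MP_90732c_al.Cx.H96

variable {L : Type} [MeasurableSpace L] (κ : Measure L) [IsProbabilityMeasure κ]

/-- Independent labels with law `κ`. -/
noncomputable def iid (κ : Measure L) (E : Type) : Measure (E → L) :=
  Measure.infinitePi fun _ : E => κ

instance (E : Type) : IsProbabilityMeasure (iid κ E) := by unfold iid; infer_instance

/-- The set `D` depends only on the coordinates in `F`. -/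
def DepOn {E : Type} (F : Finset E) (D : Set (E → L)) : Prop :=
  ∀ w w' : E → L, (∀ h ∈ F, w h = w' h) → (w ∈ D ↔ w' ∈ D)

lemma measurable_comp {A E : Type} (j : A → E) :
    Measurable (fun (u : E → L) (a : A) => u (j a)) :=
  measurable_pi_iff.2 fun a => measurable_pi_apply (j a)

/-- Reading independent labels along an injective map gives independent labels. -/
theorem law_comp_inj {A E : Type} (j : A → E) (hj : Function.Injective j) :
    (iid κ E).map (fun (u : E → L) (a : A) => u (j a)) = iid κ A := by
  classical
  refine Measure.eq_infinitePi (μ := fun _ : A => κ) ?_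
  intro s t ht
  rw [Measure.map_apply (measurable_comp j)
    (MeasurableSet.pi s.countable_toSet fun i _ => ht i)]
  have h1 : (fun (u : E → L) (a : A) => u (j a)) ⁻¹' (Set.pi s t) =
      Set.pi (↑(s.map ⟨j, hj⟩)) (Function.extend j t fun _ => Set.univ) := by
    ext u
    simp only [Set.mem_preimage, Set.mem_pi, Finset.coe_map, Function.Embedding.coeFn_mk,
      Set.mem_image, Finset.mem_coe]
    constructor
    · rintro h _ ⟨a, ha, rfl⟩
      rw [hj.extend_apply]
      exact h a ha
    · intro h a ha
      have := h (j a) ⟨a, ha, rfl⟩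
      rwa [hj.extend_apply] at this
  rw [h1, iid, Measure.infinitePi_pi]
  · rw [Finset.prod_map]
    refine Finset.prod_congr rfl fun a _ => ?_
    rw [Function.Embedding.coeFn_mk, hj.extend_apply]
  · intro e he
    rw [Finset.mem_map] at he
    obtain ⟨a, _, rfl⟩ := he
    rw [Function.Embedding.coeFn_mk, hj.extend_apply]
    exact ht a

/-- The law of the labels read along a map depends only on the fibres of the map. -/
theorem law_comp_congr {E : Type} (r r' : E → E) (h : ∀ a b, r a = r b ↔ r' a = r' b) :
    (iid κ E).map (fun (u : E → L) (a : E) => u (r a)) =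
      (iid κ E).map (fun (u : E → L) (a : E) => u (r' a)) := by
  let Q := Quotient (Setoid.ker r)
  let j : Q → E := Quotient.lift r fun a b hab => hab
  let j' : Q → E := Quotient.lift r' fun a b hab => (h a b).1 hab
  have hj : Function.Injective j := by
    intro p q
    refine Quotient.inductionOn₂ p q ?_
    intro a b hab
    exact Quotient.sound hab
  have hj' : Function.Injective j' := by
    intro p q
    refine Quotient.inductionOn₂ p q ?_
    intro a b hab
    exact Quotient.sound ((h a b).2 hab)
  have e1 : (fun (u : E → L) (a : E) => u (r a)) =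
      (fun (v : Q → L) (a : E) => v (Quotient.mk _ a)) ∘ fun (u : E → L) (q : Q) => u (j q) := rfl
  have e2 : (fun (u : E → L) (a : E) => u (r' a)) =
      (fun (v : Q → L) (a : E) => v (Quotient.mk _ a)) ∘ fun (u : E → L) (q : Q) => u (j' q) := rfl
  have hm : Measurable (fun (v : Q → L) (a : E) => v (Quotient.mk _ a)) :=
    measurable_comp (A := E) (E := Q) _
  rw [e1, e2, ← Measure.map_map hm (measurable_comp j), ← Measure.map_map hm (measurable_comp j'),
    law_comp_inj κ j hj, law_comp_inj κ j' hj']

/-- Permuting the labels. -/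
theorem iid_perm {E : Type} (e : E ≃ E) :
    MeasurePreserving (fun (u : E → L) (a : E) => u (e a)) (iid κ E) (iid κ E) :=
  ⟨measurable_comp _, law_comp_inj κ e e.injective⟩

/-- Extension by a constant. -/
noncomputable def ext0 {E : Type} (c : L) (F : Finset E) (v : F → L) (a : E) : L :=
  by classical exact if h : a ∈ F then v ⟨a, h⟩ else c

lemma measurable_ext0 {E : Type} (c : L) (F : Finset E) : Measurable (ext0 c F) := by
  classical
  refine measurable_pi_iff.2 fun a => ?_
  unfold ext0
  by_cases h : a ∈ F
  · simp only [h, dif_pos]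
    exact measurable_pi_apply _
  · simp only [h, dif_neg, not_false_iff]
    exact measurable_const

omit [MeasurableSpace L] in
lemma ext0_apply {E : Type} (c : L) (F : Finset E) (v : F → L) {a : E} (h : a ∈ F) :
    ext0 c F v a = v ⟨a, h⟩ := by
  unfold ext0
  simp [h]

/-- If `D` depends only on `F` and `r` is injective on `F`, the event that the labels read
along `r` are in `D` has the probability of `D`. -/
theorem law_comp_of_injOn {E : Type} (F : Finset E) (D : Set (E → L)) (hD : MeasurableSet D)
    (hF : DepOn F D) (r : E → E) (hr : Set.InjOn r F) :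
    iid κ E {u | (fun a => u (r a)) ∈ D} = iid κ E D := by
  obtain ⟨c⟩ : Nonempty L := nonempty_of_isProbabilityMeasure κ
  have key : ∀ r : E → E, Set.InjOn r F →
      iid κ E {u | (fun a => u (r a)) ∈ D} = iid κ F (ext0 c F ⁻¹' D) := by
    intro r hr
    have hj : Function.Injective fun a : F => r a := by
      intro a b hab
      exact Subtype.ext (hr a.2 b.2 hab)
    rw [← law_comp_inj κ (fun a : F => r a) hj,
      Measure.map_apply (measurable_comp _) (measurable_ext0 c F hD)]
    congr 1
    ext u
    simp only [Set.mem_ofPred_eq, Set.mem_preimage]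
    refine hF _ _ fun h hh => ?_
    rw [ext0_apply c F _ hh]
  rw [key r hr, ← key id (Set.injOn_id _)]
  rfl

/-- Independence of events which depend on disjoint sets of coordinates. -/
theorem law_inter {E : Type} (A B : Finset E) (hAB : Disjoint A B) (D₁ D₂ : Set (E → L))
    (h₁ : MeasurableSet D₁) (h₂ : MeasurableSet D₂) (hA : DepOn A D₁) (hB : DepOn B D₂) :
    iid κ E (D₁ ∩ D₂) = iid κ E D₁ * iid κ E D₂ := by
  obtain ⟨c⟩ : Nonempty L := nonempty_of_isProbabilityMeasure κ
  have hind : iIndepFun (fun (i : E) (u : E → L) => u i) (iid κ E) := by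
    have := iIndepFun_infinitePi (P := fun _ : E => κ) (X := fun _ x => x)
      (fun _ => measurable_id)
    exact this
  have h := hind.indepFun_finset A B hAB fun i => measurable_pi_apply i
  have e1 : (fun (u : E → L) (i : A) => u i) ⁻¹' (ext0 c A ⁻¹' D₁) = D₁ := by
    ext u
    simp only [Set.mem_preimage]
    refine hA _ _ fun h hh => ?_
    rw [ext0_apply c A _ hh]
  have e2 : (fun (u : E → L) (i : B) => u i) ⁻¹' (ext0 c B ⁻¹' D₂) = D₂ := by
    ext u
    simp only [Set.mem_preimage]
    refine hB _ _ fun h hh => ?_
    rw [ext0_apply c B _ hh]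
  have := h.measure_inter_preimage_eq_mul _ _ (measurable_ext0 c A h₁) (measurable_ext0 c B h₂)
  rwa [e1, e2] at this

omit [MeasurableSpace L] in
lemma DepOn.comp {E : Type} [DecidableEq E] {F : Finset E} {D : Set (E → L)} (h : DepOn F D)
    (r : E → E) : DepOn (F.image r) {u | (fun a => u (r a)) ∈ D} := by
  intro w w' hw
  exact h _ _ fun a ha => hw _ (Finset.mem_image_of_mem r ha)

/-- Independence of events which depend on inequivalent labels. -/
theorem law_comp_inter {E : Type} (F₁ F₂ : Finset E) (D₁ D₂ : Set (E → L))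
    (h₁ : MeasurableSet D₁) (h₂ : MeasurableSet D₂) (hF₁ : DepOn F₁ D₁) (hF₂ : DepOn F₂ D₂)
    (r : E → E) (hr : ∀ a ∈ F₁, ∀ b ∈ F₂, r a ≠ r b) (hr₂ : Set.InjOn r F₂) :
    iid κ E {u | (fun a => u (r a)) ∈ D₁ ∧ (fun a => u (r a)) ∈ D₂} =
      iid κ E {u | (fun a => u (r a)) ∈ D₁} * iid κ E D₂ := by
  classical
  rw [← law_comp_of_injOn κ F₂ D₂ h₂ hF₂ r hr₂]
  refine law_inter κ (F₁.image r) (F₂.image r) ?_ _ _ ((measurable_comp r) h₁)
    ((measurable_comp r) h₂) (hF₁.comp r) (hF₂.comp r)
  rw [Finset.disjoint_left]
  intro x hx hx'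
  obtain ⟨a, ha, rfl⟩ := Finset.mem_image.1 hx
  obtain ⟨b, hb, hab⟩ := Finset.mem_image.1 hx'
  exact hr a ha b hb hab.symm

end Pool.Agent.Lib.MP_90732c_al.Cx.H96
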