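import Pool.Agent.Lib.MP_90732c_al.Ab.Defs
import Pool.Agent.Lib.MP_90732c_al.Cx.H96.Law

/-! Class labels: independent uniform labels of the classes of an invariant random equivalence
relation. -/

set_option autoImplicit false

open MeasureTheory
open scoped ENNReal

namespace Pool.Agent.Lib.MP_90732c_al.Cx.H96

open Pool.Agent.Lib.MP_90732c_al Pool.Agent.Lib.MP_90732c_al.Ab

variable {G : Type} [Group G] {Y : Type} [MulAction G Y]

/-- The positions `h`, `h'` (that is the points `h⁻¹ • y`, `h'⁻¹ • y`) are equivalent at `y`. -/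
def Pe (S : Y → G → Prop) (y : Y) (h h' : G) : Prop := S (h⁻¹ • y) (h'⁻¹ * h)

lemma Pe.refl {S : Y → G → Prop} (hS : IsRel S) (y : Y) (h : G) : Pe S y h h := by
  unfold Pe
  rw [inv_mul_cancel]
  exact hS.one _

lemma Pe.symm {S : Y → G → Prop} (hS : IsRel S) {y : Y} {h h' : G} (hh : Pe S y h h') :
    Pe S y h' h := by
  have := hS.inv _ _ hh
  unfold Pe
  rw [smul_smul, mul_assoc, mul_inv_cancel, mul_one, mul_inv_rev, inv_inv] at this
  exact this

lemma Pe.trans {S : Y → G → Prop} (hS : IsRel S) {y : Y} {h h' h'' : G} (h1 : Pe S y h h')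
    (h2 : Pe S y h' h'') : Pe S y h h'' := by
  unfold Pe at *
  have h3 : (h'⁻¹ * h) • h⁻¹ • y = h'⁻¹ • y := by
    rw [smul_smul, mul_assoc, mul_inv_cancel, mul_one]
  have h4 := hS.mul _ _ _ h1 (by rw [h3]; exact h2)
  have h5 : h''⁻¹ * h' * (h'⁻¹ * h) = h''⁻¹ * h := by group
  rwa [h5] at h4

lemma pe_smul (S : Y → G → Prop) (g : G) (y : Y) (h h' : G) :
    Pe S (g • y) h h' ↔ Pe S y (g⁻¹ * h) (g⁻¹ * h') := by
  unfold Pe
  rw [smul_smul, mul_inv_rev, inv_inv, mul_inv_rev, inv_inv, mul_assoc h'⁻¹ g, ← mul_assoc g g⁻¹,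
    mul_inv_cancel, one_mul]

lemma measurableSet_pe [MeasurableSpace Y] {S : Y → G → Prop}
    (hG : ∀ g : G, Measurable fun y : Y => g • y) (hSm : ∀ g, MeasurableSet {y | S y g})
    (h h' : G) : MeasurableSet {y | Pe S y h h'} :=
  hG h⁻¹ (hSm (h'⁻¹ * h))

/-- A fixed enumeration of the group. -/
noncomputable def enum (G : Type) [Countable G] : G → ℕ := (exists_injective_nat G).choose

lemma enum_inj (G : Type) [Countable G] : Function.Injective (enum G) :=
  (exists_injective_nat G).choose_spec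

open Classical in
/-- The first position in the class of the position `h`. -/
noncomputable def rep [Countable G] (S : Y → G → Prop) (y : Y) (h : G) : G :=
  if hs : {h' | Pe S y h h'}.Nonempty then Function.argminOn (enum G) _ hs else h

lemma rep_mem [Countable G] {S : Y → G → Prop} (hS : IsRel S) (y : Y) (h : G) :
    Pe S y h (rep S y h) := by
  have hs : {h' | Pe S y h h'}.Nonempty := ⟨h, Pe.refl hS y h⟩
  unfold rep
  rw [dif_pos hs]
  exact Function.argminOn_mem (enum G) _ hs

lemma rep_le [Countable G] {S : Y → G → Prop} (y : Y) {h k : G} (hk : Pe S y h k) :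
    enum G (rep S y h) ≤ enum G k := by
  have hs : {h' | Pe S y h h'}.Nonempty := ⟨k, hk⟩
  unfold rep
  rw [dif_pos hs]
  exact Function.argminOn_le (enum G) {h' | Pe S y h h'} (show k ∈ {h' | Pe S y h h'} from hk)

lemma rep_eq_iff [Countable G] {S : Y → G → Prop} (hS : IsRel S) (y : Y) (h k : G) :
    rep S y h = k ↔ Pe S y h k ∧ ∀ k', Pe S y h k' → enum G k ≤ enum G k' := by
  constructor
  · rintro rfl
    exact ⟨rep_mem hS y h, fun k' hk' => rep_le y hk'⟩
  · rintro ⟨h1, h2⟩
    exact enum_inj G (le_antisymm (rep_le y h1) (h2 _ (rep_mem hS y h)))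

lemma rep_eq_rep_iff [Countable G] {S : Y → G → Prop} (hS : IsRel S) (y : Y) (h k : G) :
    rep S y h = rep S y k ↔ Pe S y h k := by
  constructor
  · intro he
    have h1 := rep_mem hS y h
    rw [he] at h1
    exact h1.trans hS ((rep_mem hS y k).symm hS)
  · intro hk
    rw [rep_eq_iff hS]
    exact ⟨hk.trans hS (rep_mem hS y k), fun k' hk' => rep_le y ((hk.symm hS).trans hS hk')⟩

lemma measurableSet_rep [Countable G] [MeasurableSpace Y] {S : Y → G → Prop} (hS : IsRel S)
    (hG : ∀ g : G, Measurable fun y : Y => g • y) (hSm : ∀ g, MeasurableSet {y | S y g})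
    (h k : G) : MeasurableSet {y | rep S y h = k} := by
  have : {y | rep S y h = k} =
      {y | Pe S y h k} ∩ ⋂ k', ({y | Pe S y h k'}ᶜ ∪ {_y | enum G k ≤ enum G k'}) := by
    ext y
    simp only [Set.mem_ofPred_eq, Set.mem_inter_iff, Set.mem_iInter, Set.mem_union,
      Set.mem_compl_iff]
    rw [rep_eq_iff hS]
    refine and_congr_right fun _ => forall_congr' fun k' => ?_
    tauto
  rw [this]
  exact (measurableSet_pe hG hSm h k).inter (MeasurableSet.iInter fun k' =>
    (measurableSet_pe hG hSm h k').compl.union (MeasurableSet.const _))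

/-! ### The space of labels -/

/-- The space of labels in `L`. -/
def Lb (L G : Type) : Type := G → L

instance (L G : Type) [MeasurableSpace L] : MeasurableSpace (Lb L G) :=
  inferInstanceAs (MeasurableSpace (G → L))

instance (L G : Type) [Countable G] [MeasurableSpace L] [StandardBorelSpace L] :
    StandardBorelSpace (Lb L G) := inferInstanceAs (StandardBorelSpace (G → L))

/-- The shift action: `(g • ω) h = ω (g⁻¹ * h)`. -/
instance (L : Type) : MulAction G (Lb L G) where
  smul g ω := fun h => ω (g⁻¹ * h)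
  one_smul ω := by
    change (fun h => ω (1⁻¹ * h)) = ω
    funext h
    rw [inv_one, one_mul]
  mul_smul a b ω := by
    change (fun h => ω ((a * b)⁻¹ * h)) = fun h => ω (b⁻¹ * (a⁻¹ * h))
    funext h
    rw [mul_inv_rev, mul_assoc]

lemma smul_lb {L : Type} (g : G) (ω : Lb L G) (h : G) : (g • ω) h = ω (g⁻¹ * h) := rfl

variable {L : Type} [MeasurableSpace L] (κ : Measure L) [IsProbabilityMeasure κ]

/-- Independent labels with law `κ`. -/
noncomputable def lb (κ : Measure L) (G : Type) : Measure (Lb L G) := iid κ G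

instance : IsProbabilityMeasure (lb κ G) := inferInstanceAs (IsProbabilityMeasure (iid κ G))

theorem lb_measurePreserving (g : G) :
    MeasurePreserving (fun ω : Lb L G => g • ω) (lb κ G) (lb κ G) :=
  iid_perm κ (Equiv.mulLeft g⁻¹)

omit [Group G] in
lemma measurable_lb (h : G) : Measurable fun ω : Lb L G => ω h := measurable_pi_apply h

omit [Group G] in
/-- The label of one position. -/
theorem lb_apply_one (h : G) {B : Set L} (hB : MeasurableSet B) :
    lb κ G {ω : Lb L G | ω h ∈ B} = κ B := by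
  have h1 := Measure.infinitePi_map_eval (μ := fun _ : G => κ) h
  have h2 := congrArg (fun m : Measure L => m B) h1
  beta_reduce at h2
  rw [Measure.map_apply (measurable_pi_apply h) hB] at h2
  exact h2

/-- The map which reads the labels along the representatives. -/
noncomputable def phi [Countable G] (S : Y → G → Prop) (x : Y × Lb L G) : Y × Lb L G :=
  (x.1, fun h => x.2 (rep S x.1 h))

lemma measurable_phi [Countable G] [MeasurableSpace Y] {S : Y → G → Prop} (hS : IsRel S)
    (hG : ∀ g : G, Measurable fun y : Y => g • y) (hSm : ∀ g, MeasurableSet {y | S y g}) :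
    Measurable (phi S : Y × Lb L G → Y × Lb L G) := by
  refine Measurable.prodMk measurable_fst ?_
  refine measurable_pi_iff.2 fun h => ?_
  intro B hB
  have : (fun x : Y × Lb L G => x.2 (rep S x.1 h)) ⁻¹' B =
      ⋃ k, ({y | rep S y h = k} ×ˢ ((fun u : Lb L G => u k) ⁻¹' B)) := by
    ext x
    simp only [Set.mem_preimage, Set.mem_iUnion, Set.mem_prod, Set.mem_ofPred_eq]
    constructor
    · intro hx
      exact ⟨_, rfl, hx⟩
    · rintro ⟨k, hk, hx⟩
      rw [hk]
      exact hx
  rw [this]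
  exact MeasurableSet.iUnion fun k =>
    (measurableSet_rep hS hG hSm h k).prod (measurable_lb k hB)

/-- The law of `y` together with the class labels. -/
noncomputable def cls [Countable G] [MeasurableSpace Y] (κ : Measure L) (ν : Measure Y)
    (S : Y → G → Prop) : Measure (Y × Lb L G) := (ν.prod (lb κ G)).map (phi S)

section
variable [Countable G] [MeasurableSpace Y] {ν : Measure Y} {S : Y → G → Prop}

lemma cls_apply [SFinite ν] (hS : IsRel S) (hG : ∀ g : G, Measurable fun y : Y => g • y)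
    (hSm : ∀ g, MeasurableSet {y | S y g}) {C : Set (Y × Lb L G)} (hC : MeasurableSet C) :
    cls κ ν S C = ∫⁻ y, lb κ G (Prod.mk y ⁻¹' (phi S ⁻¹' C)) ∂ν := by
  rw [cls, Measure.map_apply (measurable_phi hS hG hSm) hC,
    Measure.prod_apply (measurable_phi hS hG hSm hC)]

lemma cls_prob [IsProbabilityMeasure ν] (hS : IsRel S)
    (hG : ∀ g : G, Measurable fun y : Y => g • y) (hSm : ∀ g, MeasurableSet {y | S y g}) :
    IsProbabilityMeasure (cls κ ν S) :=
  Measure.isProbabilityMeasure_map (measurable_phi hS hG hSm).aemeasurable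

lemma cls_fst [SFinite ν] (hS : IsRel S) (hG : ∀ g : G, Measurable fun y : Y => g • y)
    (hSm : ∀ g, MeasurableSet {y | S y g}) :
    MeasurePreserving (Prod.fst : Y × Lb L G → Y) (cls κ ν S) ν := by
  refine ⟨measurable_fst, ?_⟩
  rw [cls, Measure.map_map measurable_fst (measurable_phi hS hG hSm)]
  have : (Prod.fst ∘ phi S : Y × Lb L G → Y) = Prod.fst := rfl
  rw [this, Measure.map_fst_prod]
  simp

/-- The labels are constant on the classes. -/
lemma cls_const [MeasurableEq L]
    (hS : IsRel S) (hG : ∀ g : G, Measurable fun y : Y => g • y)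
    (hSm : ∀ g, MeasurableSet {y | S y g}) :
    ∀ᵐ x : Y × Lb L G ∂(cls κ ν S), ∀ h k, Pe S x.1 h k → x.2 h = x.2 k := by
  rw [ae_all_iff]
  intro h
  rw [ae_all_iff]
  intro k
  have hm : MeasurableSet {x : Y × Lb L G | Pe S x.1 h k → x.2 h = x.2 k} := by
    have : {x : Y × Lb L G | Pe S x.1 h k → x.2 h = x.2 k} =
        (Prod.fst ⁻¹' {y | Pe S y h k})ᶜ ∪ {x : Y × Lb L G | x.2 h = x.2 k} := by
      ext x
      simp only [Set.mem_ofPred_eq, Set.mem_union, Set.mem_compl_iff, Set.mem_preimage]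
      tauto
    rw [this]
    refine (measurable_fst (measurableSet_pe hG hSm h k)).compl.union ?_
    exact measurableSet_eq_fun ((measurable_lb h).comp measurable_snd)
      ((measurable_lb k).comp measurable_snd)
  rw [cls, ae_map_iff (measurable_phi hS hG hSm).aemeasurable hm]
  refine Filter.Eventually.of_forall fun x hx => ?_
  have hx' : Pe S x.1 h k := hx
  change x.2 (rep S x.1 h) = x.2 (rep S x.1 k)
  rw [(rep_eq_rep_iff hS x.1 h k).2 hx']

/-- Invariance. -/
theorem cls_invariant [SFinite ν] (hν : ∀ g : G, MeasurePreserving (fun y : Y => g • y) ν ν)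
    (hS : IsRel S) (hSm : ∀ g, MeasurableSet {y | S y g}) (g : G) :
    MeasurePreserving (fun x : Y × Lb L G => g • x) (cls κ ν S) (cls κ ν S) := by
  have hG : ∀ g : G, Measurable fun y : Y => g • y := fun g => (hν g).measurable
  have hgm : Measurable fun x : Y × Lb L G => g • x :=
    ((hG g).comp measurable_fst).prodMk
      ((lb_measurePreserving κ g).measurable.comp measurable_snd)
  refine ⟨hgm, ?_⟩
  ext C hC
  rw [Measure.map_apply hgm hC, cls_apply κ hS hG hSm (hgm hC), cls_apply κ hS hG hSm hC]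
  have h0 : ∫⁻ y, lb κ G (Prod.mk y ⁻¹' (phi S ⁻¹' C)) ∂ν =
      ∫⁻ y, lb κ G (Prod.mk (g • y) ⁻¹' (phi S ⁻¹' C)) ∂ν := by
    rw [← (hν g).lintegral_comp (f := fun y => lb κ G (Prod.mk y ⁻¹' (phi S ⁻¹' C)))
      (measurable_measure_prodMk_left (measurable_phi hS hG hSm hC))]
  rw [h0]
  refine lintegral_congr fun y => ?_
  have hCy : MeasurableSet {w : G → L | ((g • y, w) : Y × Lb L G) ∈ C} :=
    measurable_prodMk_left (x := g • y) hC
  have h1 := law_comp_congr κ (E := G) (fun h => rep S y (g⁻¹ * h)) (rep S (g • y)) fun a b => by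
    rw [rep_eq_rep_iff hS, rep_eq_rep_iff hS, pe_smul]
  have h2 := congrArg (fun m : Measure (G → L) =>
    m {w : G → L | ((g • y, w) : Y × Lb L G) ∈ C}) h1
  beta_reduce at h2
  rw [Measure.map_apply (measurable_comp _) hCy, Measure.map_apply (measurable_comp _) hCy] at h2
  exact h2

/-- Labels of inequivalent positions are independent. -/
theorem cls_inter [SFinite ν] (hS : IsRel S) (hG : ∀ g : G, Measurable fun y : Y => g • y)
    (hSm : ∀ g, MeasurableSet {y | S y g}) {E : Set Y} (hE : MeasurableSet E)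
    (F₁ F₂ : Finset G) {D₁ D₂ : Set (Lb L G)} (h₁ : MeasurableSet D₁) (h₂ : MeasurableSet D₂)
    (hF₁ : DepOn F₁ D₁) (hF₂ : DepOn F₂ D₂)
    (h12 : ∀ y ∈ E, ∀ a ∈ F₁, ∀ b ∈ F₂, ¬ Pe S y a b)
    (h22 : ∀ y ∈ E, ∀ a ∈ F₂, ∀ b ∈ F₂, a ≠ b → ¬ Pe S y a b) :
    cls κ ν S (E ×ˢ (D₁ ∩ D₂)) = cls κ ν S (E ×ˢ D₁) * lb κ G D₂ := by
  rw [cls_apply κ hS hG hSm (hE.prod (h₁.inter h₂)), cls_apply κ hS hG hSm (hE.prod h₁),
    ← lintegral_mul_const]
  · refine lintegral_congr fun y => ?_
    by_cases hy : y ∈ E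
    · have e1 : Prod.mk y ⁻¹' (phi S ⁻¹' (E ×ˢ (D₁ ∩ D₂))) =
          {u : G → L | (fun h => u (rep S y h)) ∈ D₁ ∧ (fun h => u (rep S y h)) ∈ D₂} := by
        ext u
        constructor
        · intro hu
          exact hu.2
        · intro hu
          exact ⟨hy, hu⟩
      have e2 : Prod.mk y ⁻¹' (phi S ⁻¹' (E ×ˢ D₁)) =
          {u : G → L | (fun h => u (rep S y h)) ∈ D₁} := by
        ext u
        constructor
        · intro hu
          exact hu.2
        · intro hu
          exact ⟨hy, hu⟩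
      rw [e1, e2]
      refine law_comp_inter κ F₁ F₂ D₁ D₂ h₁ h₂ hF₁ hF₂ (rep S y) ?_ ?_
      · intro a ha b hb hab
        exact h12 y hy a ha b hb ((rep_eq_rep_iff hS y a b).1 hab)
      · intro a ha b hb hab
        by_contra hne
        exact h22 y hy a ha b hb hne ((rep_eq_rep_iff hS y a b).1 hab)
    · have e1 : Prod.mk y ⁻¹' (phi S ⁻¹' (E ×ˢ (D₁ ∩ D₂))) = ∅ :=
        Set.eq_empty_of_forall_notMem fun u hu => hy hu.1
      have e2 : Prod.mk y ⁻¹' (phi S ⁻¹' (E ×ˢ D₁)) = ∅ :=
        Set.eq_empty_of_forall_notMem fun u hu => hy hu.1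
      rw [e1, e2, measure_empty, zero_mul]
  · exact measurable_measure_prodMk_left (ν := lb κ G)
      (measurable_phi hS hG hSm (hE.prod h₁))

/-- The special case `D₁ = univ`. -/
theorem cls_prod [IsProbabilityMeasure ν] (hS : IsRel S)
    (hG : ∀ g : G, Measurable fun y : Y => g • y)
    (hSm : ∀ g, MeasurableSet {y | S y g}) {E : Set Y} (hE : MeasurableSet E)
    (F : Finset G) {D : Set (Lb L G)} (hD : MeasurableSet D) (hF : DepOn F D)
    (h22 : ∀ y ∈ E, ∀ a ∈ F, ∀ b ∈ F, a ≠ b → ¬ Pe S y a b) :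
    cls κ ν S (E ×ˢ D) = ν E * lb κ G D := by
  have h := cls_inter κ (ν := ν) hS hG hSm hE ∅ F (D₁ := Set.univ) MeasurableSet.univ hD
    (fun _ _ _ => Iff.rfl) hF (fun _ _ a ha => absurd ha (Finset.notMem_empty a)) h22
  rw [Set.univ_inter] at h
  rw [h]
  congr 1
  have h1 : E ×ˢ (Set.univ : Set (Lb L G)) = Prod.fst ⁻¹' E := by
    ext x
    simp
  rw [h1, (cls_fst κ hS hG hSm).measure_preimage hE.nullMeasurableSet]

end

end Pool.Agent.Lib.MP_90732c_al.Cx.H96
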