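import Pool.Agent.Lib.MP_90732c_al.Cx.Interfaces
import Pool.Agent.Lib.MP_90732c_al.Cx.H96.Cls

/-! CLAB and LAWEQ: class labels exist. -/

set_option autoImplicit false

open MeasureTheory
open scoped ENNReal

namespace Pool.Agent.Lib.MP_90732c_al.Cx.H96

open Pool.Agent.Lib.MP_90732c_al Pool.Agent.Lib.MP_90732c_al.Ab

theorem laweq : LawEqStatement := by
  intro G _ _ r r' h
  exact law_comp_congr unif r r' h

/-- The points at which the labels are constant on the classes. -/
def Good {G : Type} [Group G] {Y : Type} [MulAction G Y] (S : Y → G → Prop) : Set (Y × Lab G) :=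
  {z | ∀ h k, Pe S z.1 h k → z.2 h = z.2 k}

lemma good_smul {G : Type} [Group G] {Y : Type} [MulAction G Y] (S : Y → G → Prop) (g : G)
    {z : Y × Lab G} (hz : z ∈ Good S) : g • z ∈ Good S := by
  intro h k hk
  change Pe S (g • z.1) h k at hk
  rw [pe_smul] at hk
  exact hz _ _ hk

open Classical in
theorem clab : ClabStatement := by
  intro G _ _ Y _ _ ν _ S hS
  have hG : ∀ g : G, Measurable fun y : Y => g • y := fun g => (hS.mp g).measurable
  have hGood : MeasurableSet (Good S) := by
    have : Good S = ⋂ h, ⋂ k, ((Prod.fst ⁻¹' {y | Pe S y h k})ᶜ ∪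
        {x : Y × Lab G | x.2 h = x.2 k}) := by
      ext x
      simp only [Good, Set.mem_ofPred_eq, Set.mem_union, Set.mem_compl_iff, Set.mem_preimage,
        Set.mem_iInter]
      refine forall_congr' fun h => forall_congr' fun k => ?_
      tauto
    rw [this]
    refine MeasurableSet.iInter fun h => MeasurableSet.iInter fun k => ?_
    refine (measurable_fst (measurableSet_pe hG hS.meas h k)).compl.union ?_
    exact measurableSet_eq_fun ((measurable_pi_apply h).comp measurable_snd)
      ((measurable_pi_apply k).comp measurable_snd)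
  refine ⟨cls unif ν S, fun z => if z ∈ Good S then z.2 1 else 0,
    fun y x => rep S y x⁻¹, cls_prob unif hS.rel hG hS.meas, ?_⟩
  refine ⟨?_, ?_, ?_, ?_, ?_, ?_, ?_⟩
  · intro x g
    exact measurableSet_rep hS.rel hG hS.meas x⁻¹ g
  · intro y x x'
    rw [rep_eq_rep_iff hS.rel]
    unfold Pe Eqv
    rw [inv_inv, inv_inv]
  · have : (fun p : Y × Lab G => ((p.1, fun h => p.2 (rep S p.1 h⁻¹⁻¹)) : Y × Lab G)) = phi S := by
      funext p
      simp only [inv_inv]
      rfl
    rw [this]
    rfl
  · exact Measurable.ite hGood ((measurable_pi_apply 1).comp measurable_snd) measurable_const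
  · intro g
    exact cls_invariant unif hS.mp hS.rel hS.meas g
  · intro z g hg
    have h1 : Pe S z.1 g⁻¹ 1 := by
      unfold Pe
      rw [inv_inv, inv_one, one_mul]
      exact hS.rel.inv _ _ hg
    by_cases hz : z ∈ Good S
    · simp only [hz, good_smul S g hz, if_true]
      have h2 := hz _ _ h1
      change z.2 (g⁻¹ * 1) = z.2 1
      rw [mul_one]
      exact h2
    · have hz' : g • z ∉ Good S := by
        intro h
        have := good_smul S g⁻¹ h
        rw [inv_smul_smul] at this
        exact hz this
      simp only [hz, hz', if_false]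
  · filter_upwards [cls_const unif (ν := ν) hS.rel hG hS.meas] with z hz x
    have h1 : z ∈ Good S := hz
    simp only [good_smul S x h1, if_true]
    change z.2 (x⁻¹ * 1) = z.2 x⁻¹
    rw [mul_one]

end Pool.Agent.Lib.MP_90732c_al.Cx.H96
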