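import Pool.Agent.Lib.MP_90732c_al.Cx.Interfaces
import Pool.Agent.Lib.MP_90732c_al.Cx.H96.Law

/-! MIX: the colours of the classes are independent of invariant sets. -/

set_option autoImplicit false

open MeasureTheory Filter
open scoped ENNReal Topology

namespace Pool.Agent.Lib.MP_90732c_al.Cx.H96

open Pool.Agent.Lib.MP_90732c_al Pool.Agent.Lib.MP_90732c_al.Ab

variable {G : Type} [Group G] [Countable G] {Y : Type} [MeasurableSpace Y] [MulAction G Y]
  {ν : Measure Y} [IsProbabilityMeasure ν] {S : Y → G → Prop} {ν' : Measure (Y × Lab G)}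
  {ℓ : Y × Lab G → ℝ} {rep : Y → G → G}

/-- The map of `IsClab`. -/
def Phi (rep : Y → G → G) (p : Y × Lab G) : Y × Lab G := (p.1, fun h => p.2 (rep p.1 h⁻¹))

omit [MulAction G Y] in
lemma measurable_Phi (hrep : ∀ x g, MeasurableSet {y | rep y x = g}) :
    Measurable (Phi rep : Y × Lab G → Y × Lab G) := by
  refine Measurable.prodMk measurable_fst ?_
  refine measurable_pi_iff.2 fun h => ?_
  intro B hB
  have : (fun x : Y × Lab G => x.2 (rep x.1 h⁻¹)) ⁻¹' B =
      ⋃ k, ({y | rep y h⁻¹ = k} ×ˢ ((fun u : Lab G => u k) ⁻¹' B)) := by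
    ext x
    simp only [Set.mem_preimage, Set.mem_iUnion, Set.mem_prod, Set.mem_ofPred_eq]
    constructor
    · intro hx
      exact ⟨_, rfl, hx⟩
    · rintro ⟨k, hk, hx⟩
      rw [hk]
      exact hx
  rw [this]
  exact MeasurableSet.iUnion fun k => (hrep h⁻¹ k).prod (measurable_pi_apply k hB)

omit [IsProbabilityMeasure ν] in
lemma clab_apply [SFinite ν] (hc : IsClab ν S ν' ℓ rep) {C : Set (Y × Lab G)} (hC : MeasurableSet C) :
    ν' C = ∫⁻ y, lam G (Prod.mk y ⁻¹' (Phi rep ⁻¹' C)) ∂ν := by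
  have h := hc.eq_map
  have h2 : ν' C = (ν.prod (lam G)) (Phi rep ⁻¹' C) := by
    rw [h]
    exact Measure.map_apply (measurable_Phi hc.meas_rep) hC
  rw [h2, Measure.prod_apply (measurable_Phi hc.meas_rep hC)]

/-- Inequivalent labels are independent. -/
theorem clab_inter (hc : IsClab ν S ν' ℓ rep) {E : Set Y} (hE : MeasurableSet E)
    (F₁ F₂ : Finset G) {D₁ D₂ : Set (Lab G)} (h₁ : MeasurableSet D₁) (h₂ : MeasurableSet D₂)
    (hF₁ : DepOn F₁ D₁) (hF₂ : DepOn F₂ D₂)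
    (h12 : ∀ y ∈ E, ∀ a ∈ F₁, ∀ b ∈ F₂, ¬ Eqv S y a⁻¹ b⁻¹)
    (h22 : ∀ y ∈ E, ∀ a ∈ F₂, ∀ b ∈ F₂, a ≠ b → ¬ Eqv S y a⁻¹ b⁻¹) :
    ν' (E ×ˢ (D₁ ∩ D₂)) = ν' (E ×ˢ D₁) * lam G D₂ := by
  rw [clab_apply hc (hE.prod (h₁.inter h₂)), clab_apply hc (hE.prod h₁), ← lintegral_mul_const]
  · refine lintegral_congr fun y => ?_
    by_cases hy : y ∈ E
    · have e1 : Prod.mk y ⁻¹' (Phi rep ⁻¹' (E ×ˢ (D₁ ∩ D₂))) =
          {u : G → ℝ | (fun h => u (rep y h⁻¹)) ∈ D₁ ∧ (fun h => u (rep y h⁻¹)) ∈ D₂} := by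
        ext u
        constructor
        · intro hu
          exact hu.2
        · intro hu
          exact ⟨hy, hu⟩
      have e2 : Prod.mk y ⁻¹' (Phi rep ⁻¹' (E ×ˢ D₁)) =
          {u : G → ℝ | (fun h => u (rep y h⁻¹)) ∈ D₁} := by
        ext u
        constructor
        · intro hu
          exact hu.2
        · intro hu
          exact ⟨hy, hu⟩
      rw [e1, e2]
      refine law_comp_inter unif F₁ F₂ D₁ D₂ h₁ h₂ hF₁ hF₂ (fun h => rep y h⁻¹) ?_ ?_
      · intro a ha b hb hab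
        exact h12 y hy a ha b hb ((hc.rep_iff y _ _).1 hab)
      · intro a ha b hb hab
        by_contra hne
        exact h22 y hy a ha b hb hne ((hc.rep_iff y _ _).1 hab)
    · have e1 : Prod.mk y ⁻¹' (Phi rep ⁻¹' (E ×ˢ (D₁ ∩ D₂))) = ∅ :=
        Set.eq_empty_of_forall_notMem fun u hu => hy hu.1
      have e2 : Prod.mk y ⁻¹' (Phi rep ⁻¹' (E ×ˢ D₁)) = ∅ :=
        Set.eq_empty_of_forall_notMem fun u hu => hy hu.1
      rw [e1, e2, measure_empty, zero_mul]
  · exact measurable_measure_prodMk_left (ν := lam G)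
      (measurable_Phi hc.meas_rep (hE.prod h₁))

lemma clab_prob (hc : IsClab ν S ν' ℓ rep) : IsProbabilityMeasure ν' := by
  rw [hc.eq_map]
  exact Measure.isProbabilityMeasure_map (measurable_Phi hc.meas_rep).aemeasurable

lemma clab_fst (hc : IsClab ν S ν' ℓ rep) {E : Set Y} (hE : MeasurableSet E) :
    ν' (E ×ˢ Set.univ) = ν E := by
  rw [clab_apply hc (hE.prod MeasurableSet.univ)]
  have : ∀ y, lam G (Prod.mk y ⁻¹' (Phi rep ⁻¹' (E ×ˢ Set.univ))) =
      E.indicator (fun _ => (1 : ℝ≥0∞)) y := by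
    intro y
    by_cases hy : y ∈ E
    · have e1 : Prod.mk y ⁻¹' (Phi rep ⁻¹' (E ×ˢ (Set.univ : Set (Lab G)))) = Set.univ :=
        Set.eq_univ_of_forall fun u => ⟨hy, trivial⟩
      rw [e1, measure_univ, Set.indicator_of_mem hy]
    · have e1 : Prod.mk y ⁻¹' (Phi rep ⁻¹' (E ×ˢ (Set.univ : Set (Lab G)))) = ∅ :=
        Set.eq_empty_of_forall_notMem fun u hu => hy hu.1
      rw [e1, measure_empty, Set.indicator_of_notMem hy]
  simp_rw [this]
  rw [lintegral_indicator hE]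
  simp

/-- The boxes. -/
def Box (G Y : Type) [MeasurableSpace Y] : Set (Set (Y × Lab G)) :=
  {T | ∃ (E : Set Y) (F : Finset G) (D : Set (Lab G)), MeasurableSet E ∧ MeasurableSet D ∧
    DepOn F D ∧ T = E ×ˢ D}

omit [Group G] [Countable G] [MulAction G Y] in
lemma isPiSystem_box : IsPiSystem (Box G Y) := by
  classical
  rintro _ ⟨E, F, D, hE, hD, hF, rfl⟩ _ ⟨E', F', D', hE', hD', hF', rfl⟩ _
  refine ⟨E ∩ E', F ∪ F', D ∩ D', hE.inter hE', hD.inter hD', ?_, Set.prod_inter_prod⟩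
  intro w w' hw
  exact and_congr (hF w w' fun h hh => hw h (Finset.mem_union_left _ hh))
    (hF' w w' fun h hh => hw h (Finset.mem_union_right _ hh))

omit [Group G] [Countable G] [MulAction G Y] in
lemma box_generate : (inferInstance : MeasurableSpace (Y × Lab G)) =
    MeasurableSpace.generateFrom (Box G Y) := by
  apply le_antisymm
  · refine sup_le ?_ ?_
    · rintro _ ⟨E, hE, rfl⟩
      refine MeasurableSpace.measurableSet_generateFrom ⟨E, ∅, Set.univ, hE, MeasurableSet.univ,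
        fun _ _ _ => Iff.rfl, ?_⟩
      ext x
      simp
    · have h2 : @Measurable (Y × Lab G) (G → ℝ) (MeasurableSpace.generateFrom (Box G Y)) _
          Prod.snd := by
        refine @measurable_pi_lambda _ _ _ (MeasurableSpace.generateFrom (Box G Y)) _ _
          fun h => ?_
        intro B hB
        refine MeasurableSpace.measurableSet_generateFrom ⟨Set.univ, {h},
          (fun w : Lab G => w h) ⁻¹' B, MeasurableSet.univ, measurable_pi_apply h hB, ?_, ?_⟩
        · intro w w' hw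
          have := hw h (Finset.mem_singleton_self h)
          change w h ∈ B ↔ w' h ∈ B
          rw [this]
        · ext x
          simp only [Set.mem_preimage, Set.mem_prod, Set.mem_univ, true_and]
      exact (@measurable_iff_comap_le _ _ (MeasurableSpace.generateFrom (Box G Y)) _ _).1 h2
  · refine MeasurableSpace.generateFrom_le ?_
    rintro _ ⟨E, F, D, hE, hD, hF, rfl⟩
    exact hE.prod hD

omit [MulAction G Y] [IsProbabilityMeasure ν] in
lemma exists_seq (hd : Dispersed ν S) :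
    ∃ g : ℕ → G, ∀ x, Tendsto (fun k => ν {y | S y (g k * x)}) atTop (𝓝 0) := by
  obtain ⟨e, he⟩ := exists_injective_nat G
  have : ∀ k : ℕ, ∃ g : G, ∀ x, e x ≤ k →
      ν {y | S y (g * x)} ≤ (((k + 1 : ℕ) : ℝ≥0∞))⁻¹ := by
    intro k
    have hfin : {x | e x ≤ k}.Finite := (Set.finite_Iic k).preimage he.injOn
    obtain ⟨g, hg⟩ := hd hfin.toFinset (((k + 1 : ℕ) : ℝ≥0∞))⁻¹
      (ENNReal.inv_pos.2 (ENNReal.natCast_ne_top _))
    exact ⟨g, fun x hx => hg x (hfin.mem_toFinset.2 hx)⟩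
  choose g hg using this
  refine ⟨g, fun x => ?_⟩
  have h0 : Tendsto (fun k : ℕ => (((k + 1 : ℕ) : ℝ≥0∞))⁻¹) atTop (𝓝 0) :=
    (tendsto_add_atTop_iff_nat 1).2 ENNReal.tendsto_inv_nat_nhds_zero
  refine tendsto_of_tendsto_of_tendsto_of_le_of_le' tendsto_const_nhds h0
    (Eventually.of_forall fun _ => zero_le) ?_
  filter_upwards [eventually_ge_atTop (e x)] with k hk using hg k x hk

omit [Countable G] [IsProbabilityMeasure ν] in
lemma measure_eqv (hS : Sys ν S) (g h : G) :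
    ν {y | Eqv S y h⁻¹ g} ≤ ν {y | S y (g * h)} := by
  have h1 : {y | Eqv S y h⁻¹ g} = (fun y : Y => h⁻¹ • y) ⁻¹' {y | S y (g * h)} := by
    ext y
    change S (h⁻¹ • y) (g * h⁻¹⁻¹) ↔ S (h⁻¹ • y) (g * h)
    rw [inv_inv]
  rw [h1, (hS.mp h⁻¹).measure_preimage (hS.meas _).nullMeasurableSet]

lemma lab_window (g : G) {W : Set ℝ} (hW : MeasurableSet W) :
    lam G {w : Lab G | w g⁻¹ ∈ W} = unif W := by
  have h1 := Measure.infinitePi_map_eval (μ := fun _ : G => unif) g⁻¹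
  have h2 := congrArg (fun m : Measure ℝ => m W) h1
  beta_reduce at h2
  have hm : Measurable (fun f : G → ℝ => f g⁻¹) := measurable_pi_apply _
  rw [Measure.map_apply hm hW] at h2
  exact h2

/-- Two inequalities for boxes. -/
lemma box_le (hS : Sys ν S) (hc : IsClab ν S ν' ℓ rep) {W : Set ℝ} (hW : MeasurableSet W)
    {E : Set Y} {F : Finset G} {D : Set (Lab G)} (hE : MeasurableSet E) (hD : MeasurableSet D)
    (hF : DepOn F D) (g : G) :
    ν' ((E ×ˢ D) ∩ {z | z.2 g⁻¹ ∈ W}) ≤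
        ν' (E ×ˢ D) * unif W + ∑ h ∈ F, ν {y | S y (g * h)} ∧
      ν' (E ×ˢ D) * unif W ≤
        ν' ((E ×ˢ D) ∩ {z | z.2 g⁻¹ ∈ W}) + ∑ h ∈ F, ν {y | S y (g * h)} := by
  classical
  have := clab_prob hc
  set b : ℝ≥0∞ := ∑ h ∈ F, ν {y | S y (g * h)} with hb
  set Bad : Set Y := ⋃ h ∈ F, {y | Eqv S y h⁻¹ g} with hBad
  have hm : ∀ h, MeasurableSet {y | Eqv S y h⁻¹ g} := by
    intro h
    exact (hS.mp h⁻¹).measurable (hS.meas _)
  have hBm : MeasurableSet Bad := Finset.measurableSet_biUnion F fun h _ => hm h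
  have hBle : ν Bad ≤ b := by
    refine (measure_biUnion_finset_le F _).trans ?_
    exact Finset.sum_le_sum fun h _ => measure_eqv hS g h
  set Dg : Set (Lab G) := {w : Lab G | w g⁻¹ ∈ W} with hDg
  have hDgm : MeasurableSet Dg := measurable_pi_apply g⁻¹ hW
  have hDgF : DepOn {g⁻¹} Dg := by
    intro w w' hw
    have := hw g⁻¹ (Finset.mem_singleton_self _)
    change w g⁻¹ ∈ W ↔ w' g⁻¹ ∈ W
    rw [this]
  have key : ν' ((E \ Bad) ×ˢ (D ∩ Dg)) = ν' ((E \ Bad) ×ˢ D) * unif W := by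
    have := clab_inter hc (hE.diff hBm) F {g⁻¹} hD hDgm hF hDgF ?_ ?_
    · rw [this, lab_window g hW]
    · intro y hy a ha b' hb' hab
      rw [Finset.mem_singleton.1 hb', inv_inv] at hab
      exact hy.2 (Set.mem_biUnion ha hab)
    · intro y _ a ha b' hb' hne
      rw [Finset.mem_singleton.1 ha, Finset.mem_singleton.1 hb'] at hne
      exact absurd rfl hne
  have e1 : (E ×ˢ D) ∩ {z : Y × Lab G | z.2 g⁻¹ ∈ W} = E ×ˢ (D ∩ Dg) := by
    ext z
    simp only [Set.mem_inter_iff, Set.mem_prod, Set.mem_ofPred_eq, hDg]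
    tauto
  have e2 : ∀ D' : Set (Lab G), MeasurableSet D' →
      ν' (E ×ˢ D') ≤ ν' ((E \ Bad) ×ˢ D') + b := by
    intro D' hD'
    have hsub : E ×ˢ D' ⊆ ((E \ Bad) ×ˢ D') ∪ (Bad ×ˢ Set.univ) := by
      rintro ⟨y, w⟩ ⟨h1, h2⟩
      by_cases hy : y ∈ Bad
      · exact Or.inr ⟨hy, trivial⟩
      · exact Or.inl ⟨⟨h1, hy⟩, h2⟩
    refine (measure_mono hsub).trans ((measure_union_le _ _).trans ?_)
    rw [clab_fst hc hBm]
    exact add_le_add_right hBle _
  have hu : unif W ≤ 1 := prob_le_one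
  constructor
  · rw [e1]
    refine (e2 _ (hD.inter hDgm)).trans ?_
    rw [key]
    refine add_le_add_left (mul_le_mul_left (measure_mono ?_) _) _
    exact Set.prod_mono Set.sdiff_subset subset_rfl
  · rw [e1]
    calc ν' (E ×ˢ D) * unif W ≤ (ν' ((E \ Bad) ×ˢ D) + b) * unif W :=
          mul_le_mul_left (e2 _ hD) _
      _ = ν' ((E \ Bad) ×ˢ D) * unif W + b * unif W := add_mul _ _ _
      _ ≤ ν' ((E \ Bad) ×ˢ D) * unif W + b :=
          add_le_add_right ((mul_le_mul_right hu _).trans_eq (mul_one _)) _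
      _ = ν' ((E \ Bad) ×ˢ (D ∩ Dg)) + b := by rw [key]
      _ ≤ ν' (E ×ˢ (D ∩ Dg)) + b :=
          add_le_add_left (measure_mono (Set.prod_mono Set.sdiff_subset subset_rfl)) _

/-- The colours are asymptotically independent of every event. -/
theorem tendsto_inter (hS : Sys ν S) (hc : IsClab ν S ν' ℓ rep) {W : Set ℝ}
    (hW : MeasurableSet W) {g : ℕ → G}
    (hg : ∀ x, Tendsto (fun k => ν {y | S y (g k * x)}) atTop (𝓝 0))
    {T : Set (Y × Lab G)} (hT : MeasurableSet T) :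
    Tendsto (fun k => ν' (T ∩ {z | z.2 (g k)⁻¹ ∈ W})) atTop (𝓝 (ν' T * unif W)) := by
  have := clab_prob hc
  have hAm : ∀ k, MeasurableSet {z : Y × Lab G | z.2 (g k)⁻¹ ∈ W} := fun k =>
    ((measurable_pi_apply (g k)⁻¹).comp measurable_snd) hW
  have hbox : ∀ T ∈ Box G Y,
      Tendsto (fun k => ν' (T ∩ {z | z.2 (g k)⁻¹ ∈ W})) atTop (𝓝 (ν' T * unif W)) := by
    rintro _ ⟨E, F, D, hE, hD, hF, rfl⟩
    have hb : Tendsto (fun k => ∑ h ∈ F, ν {y | S y (g k * h)}) atTop (𝓝 0) := by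
      have := tendsto_finsetSum F fun h _ => hg h
      rwa [Finset.sum_const_zero] at this
    have hne : ν' (E ×ˢ D) * unif W ≠ ⊤ :=
      ENNReal.mul_ne_top (measure_ne_top _ _) (measure_ne_top _ _)
    refine tendsto_of_tendsto_of_tendsto_of_le_of_le
      (g := fun k => ν' (E ×ˢ D) * unif W - ∑ h ∈ F, ν {y | S y (g k * h)})
      (h := fun k => ν' (E ×ˢ D) * unif W + ∑ h ∈ F, ν {y | S y (g k * h)}) ?_ ?_ ?_ ?_
    · have := ENNReal.Tendsto.sub (tendsto_const_nhds (x := ν' (E ×ˢ D) * unif W)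
        (f := atTop (α := ℕ))) hb (Or.inl hne)
      rwa [tsub_zero] at this
    · have := (tendsto_const_nhds (x := ν' (E ×ˢ D) * unif W) (f := atTop (α := ℕ))).add hb
      rwa [add_zero] at this
    · intro k
      exact tsub_le_iff_right.2 (box_le hS hc hW hE hD hF (g k)).2
    · intro k
      exact (box_le hS hc hW hE hD hF (g k)).1
  have huniv : Tendsto (fun k => ν' {z : Y × Lab G | z.2 (g k)⁻¹ ∈ W}) atTop (𝓝 (unif W)) := by
    have := hbox Set.univ ⟨Set.univ, ∅, Set.univ, MeasurableSet.univ, MeasurableSet.univ,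
      fun _ _ _ => Iff.rfl, Set.univ_prod_univ.symm⟩
    simpa only [Set.univ_inter, measure_univ, one_mul] using this
  induction T, hT using MeasurableSpace.induction_on_inter box_generate isPiSystem_box with
  | empty => simp
  | basic T hT => exact hbox T hT
  | compl T hT ih =>
    have h1 : ∀ k, ν' (Tᶜ ∩ {z | z.2 (g k)⁻¹ ∈ W}) =
        ν' {z : Y × Lab G | z.2 (g k)⁻¹ ∈ W} - ν' (T ∩ {z | z.2 (g k)⁻¹ ∈ W}) := by
      intro k
      rw [← measure_sdiff Set.inter_subset_right (hT.inter (hAm k)).nullMeasurableSet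
        (measure_ne_top _ _)]
      congr 1
      ext z
      simp only [Set.mem_inter_iff, Set.mem_compl_iff, Set.mem_sdiff]
      tauto
    simp_rw [h1]
    have h2 : ν' Tᶜ * unif W = unif W - ν' T * unif W := by
      rw [prob_compl_eq_one_sub hT, ENNReal.sub_mul fun _ _ => measure_ne_top _ _, one_mul]
    rw [h2]
    exact ENNReal.Tendsto.sub huniv ih (Or.inl (measure_ne_top _ _))
  | iUnion f hd hf ih =>
    have h1 : ∀ k, ν' ((⋃ i, f i) ∩ {z | z.2 (g k)⁻¹ ∈ W}) =
        ∫⁻ i, ν' (f i ∩ {z | z.2 (g k)⁻¹ ∈ W}) ∂Measure.count := by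
      intro k
      rw [Set.iUnion_inter, measure_iUnion, lintegral_count]
      · intro i j hij
        exact (hd hij).mono Set.inter_subset_left Set.inter_subset_left
      · intro i
        exact (hf i).inter (hAm k)
    have h2 : ν' (⋃ i, f i) * unif W = ∫⁻ i, ν' (f i) * unif W ∂Measure.count := by
      rw [measure_iUnion hd hf, lintegral_count, ENNReal.tsum_mul_right]
    simp_rw [h1]
    rw [h2]
    refine tendsto_lintegral_of_dominated_convergence (fun i => ν' (f i))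
      (fun _ => measurable_from_nat) (fun k => Eventually.of_forall fun i =>
        measure_mono Set.inter_subset_left) ?_ (Eventually.of_forall fun i => ih i)
    rw [lintegral_count, ← measure_iUnion hd hf]
    exact measure_ne_top _ _

/-- MIX. -/
theorem mix : MixStatement := by
  intro G _ _ Y _ _ ν _ S ν' ℓ rep hS hc hd T hT hinv N hN q
  have := clab_prob hc
  obtain ⟨g, hg⟩ := exists_seq hd
  set W : Set ℝ := window N q with hWdef
  have hW : MeasurableSet W := measurableSet_window N q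
  have hlim := tendsto_inter hS hc hW hg hT
  have hconst : ∀ k, ν' (T ∩ {z | z.2 (g k)⁻¹ ∈ W}) =
      ν' (T ∩ {z | ⌊(N : ℝ) * ℓ z⌋₊ = q}) := by
    intro k
    have hm : MeasurableSet (T ∩ {z | ⌊(N : ℝ) * ℓ z⌋₊ = q}) := hT.inter (hc.meas hW)
    rw [← (hc.mp (g k)).measure_preimage hm.nullMeasurableSet]
    refine measure_congr ?_
    filter_upwards [hc.lab] with z hz
    refine propext ?_
    change (z ∈ T ∧ z.2 (g k)⁻¹ ∈ W) ↔ (g k • z ∈ T ∧ ℓ (g k • z) ∈ W)
    rw [hinv, hz]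
  have h1 : ν' (T ∩ {z | ⌊(N : ℝ) * ℓ z⌋₊ = q}) = ν' T * unif W := by
    simp_rw [hconst] at hlim
    exact tendsto_nhds_unique tendsto_const_nhds hlim
  rw [h1, mul_comm]
  exact mul_le_mul_left (unif_window_le hN q) _

end Pool.Agent.Lib.MP_90732c_al.Cx.H96
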